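import Mathlib
import Pool.Agent.Q34.PolyD
import Pool.Agent.Results.MP_8dad47_al.GenerationDegree

/-!
# MP_be6357_al, Q1: associated primes of homological shift ideals of polymatroidal powers

For every polymatroidal ideal `I` and all `k ≥ i > 0`: `HS_i(I^(k+1)) : I = HS_i(I^k)` if `I ≠ 0`,
and `Ass HS_i(I^k) ⊆ Ass HS_i(I^(k+1))`.
-/

set_option autoImplicit false

namespace Pool.Agent.Results.MP_be6357_al.AssChain

open MvPolynomial Finset Q34.Poly
open Pool.Agent.Results.MP_8dad47_al.GenerationDegree (IsPolymatroidal HS hs_pow pw_finite span_mul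
  TorNonzero)

variable {K : Type*} [Field K] {n : ℕ}

theorem mem_span_iff (S : Set (Fin n →₀ ℕ)) (f : MvPolynomial (Fin n) K) :
    f ∈ Ideal.span ((fun u => monomial u (1 : K)) '' S) ↔ ∀ s ∈ f.support, ∃ a ∈ S, a ≤ s := by
  rw [mem_ideal_span_monomial_image]

theorem HS_eq {B : Set (Fin n →₀ ℕ)} {d : ℕ} (hd : SameDeg B d) (hB : Exc B) (i : ℕ) (hi : 1 ≤ i)
    (m : ℕ) : HS i ((Ideal.span ((fun u => monomial u (1 : K)) '' B)) ^ m) =
      Ideal.span ((fun u => monomial u (1 : K)) '' Sh (pw B m) i) := by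
  unfold HS
  rw [hs_pow hd hB i hi m]
  rfl

theorem Sh_succ {B : Set (Fin n →₀ ℕ)} {d : ℕ} (hd : SameDeg B d) (hB : Exc B) (i k : ℕ)
    (hk : i ≤ k) : Sh (pw B (k + 1)) i = {z | ∃ x ∈ B, ∃ y ∈ Sh (pw B k) i, z = x + y} := by
  ext a
  constructor
  · rintro ⟨u, hu, F, hF, ha, ht⟩
    obtain ⟨b, hb, u', hu', heq, ht'⟩ := decomp hB hd hu (by omega) ht
    exact ⟨b, hb, u' + ind F, ⟨u', hu', F, hF, rfl, ht'⟩, by rw [ha, heq, add_assoc]⟩
  · rintro ⟨b, hb, _, ⟨u', hu', F, hF, rfl, ht⟩, rfl⟩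
    refine ⟨b + u', ?_, F, hF, (add_assoc _ _ _).symm, fun A hA hne =>
      not_tight_add hb (ht A hA hne)⟩
    rw [pw_succ]
    exact ⟨u', hu', b, hb, add_comm _ _⟩

theorem Sh_deg {C : Set (Fin n →₀ ℕ)} {d : ℕ} (hd : SameDeg C d) (i : ℕ) :
    SameDeg (Sh C i) (d + i) := by
  rintro _ ⟨u, hu, F, hF, rfl, -⟩
  simp only [Finsupp.add_apply, sum_add_distrib]
  rw [hd u hu, sum_ind, hF]

theorem Sh_exc' {C : Set (Fin n →₀ ℕ)} (hC : Exc C) {d : ℕ} (hd : SameDeg C d) (i : ℕ) :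
    Exc (Sh C i) := by
  have hfin := pw_finite hd
  have h : (hfin.toFinset : Set (Fin n →₀ ℕ)) = C := hfin.coe_toFinset
  have h1 := Sh_exc (C := hfin.toFinset) (by rw [h]; exact hC) (by rw [h]; exact hd) i
  rwa [h] at h1

/-- strong persistence on the level of exponents -/
theorem persist {B : Set (Fin n →₀ ℕ)} {d : ℕ} (hd : SameDeg B d) (hB : Exc B) (hne : B.Nonempty)
    (i k : ℕ) (hk : i ≤ k) (hne' : (Sh (pw B k) i).Nonempty) (x : Fin n →₀ ℕ)
    (h : ∀ b ∈ B, ∃ a ∈ Sh (pw B (k + 1)) i, a ≤ x + b) : ∃ a ∈ Sh (pw B k) i, a ≤ x := by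
  by_contra hcon
  obtain ⟨A, g, hg, h1, h2⟩ := exists_violated (Sh_exc' (hB.pw k) (hd.pw k) i)
    (Sh_deg (hd.pw k) i) hne' x hcon
  obtain ⟨b, hb, hmin⟩ : ∃ b ∈ B, ∀ c ∈ B, ∑ j ∈ A, b j ≤ ∑ j ∈ A, c j := by
    obtain ⟨b0, hb0⟩ := hne
    have hex : ∃ m, ∃ b ∈ B, ∑ j ∈ A, b j = m := ⟨_, b0, hb0, rfl⟩
    classical
    obtain ⟨b, hb, hbm⟩ := Nat.find_spec hex
    exact ⟨b, hb, fun c hc => hbm ▸ Nat.find_min' hex ⟨c, hc, rfl⟩⟩
  obtain ⟨a, ha, hle⟩ := h b hb
  rw [Sh_succ hd hB i k hk] at ha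
  obtain ⟨b', hb', a', ha', rfl⟩ := ha
  have h3 : ∑ j ∈ A, (b' + a') j ≤ ∑ j ∈ A, (x + b) j := sum_le_sum fun j _ => hle j
  simp only [Finsupp.add_apply, sum_add_distrib] at h3
  have h4 := hmin b' hb'
  have h5 := h2 a' ha'
  omega

/-- **strong persistence** -/
theorem colon {B : Set (Fin n →₀ ℕ)} {d : ℕ} (hd : SameDeg B d) (hB : Exc B) (hne : B.Nonempty)
    (i : ℕ) (hi : 1 ≤ i) (k : ℕ) (hk : i ≤ k) (hne' : (Sh (pw B k) i).Nonempty)
    (f : MvPolynomial (Fin n) K)
    (h : ∀ b ∈ B, f * monomial b 1 ∈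
      HS i ((Ideal.span ((fun u => monomial u (1 : K)) '' B)) ^ (k + 1))) :
    f ∈ HS i ((Ideal.span ((fun u => monomial u (1 : K)) '' B)) ^ k) := by
  rw [HS_eq hd hB i hi, mem_span_iff]
  intro s hs
  apply persist hd hB hne i k hk hne' s
  intro b hb
  have h1 := h b hb
  rw [HS_eq hd hB i hi, mem_span_iff] at h1
  apply h1
  rw [mem_support_iff, coeff_mul_monomial, mul_one]
  exact mem_support_iff.mp hs

/-- **Associated primes.** Let `I` be a polymatroidal ideal in a polynomial ring in `n` variables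
over a field `K` and `i > 0`. Then for all `k ≥ i` every associated prime of `HS_i(I^k)` is an
associated prime of `HS_i(I^(k+1))`; and if `I ≠ 0` and `HS_i(I^k) ≠ 0` then
`HS_i(I^(k+1)) : I = HS_i(I^k)`. -/
theorem result (K : Type*) [Field K] (n : ℕ) (I : Ideal (MvPolynomial (Fin n) K))
    (hI : IsPolymatroidal I) (i : ℕ) (hi : 0 < i) (k : ℕ) (hk : i ≤ k) :
    associatedPrimes (MvPolynomial (Fin n) K) (MvPolynomial (Fin n) K ⧸ HS i (I ^ k)) ⊆
        associatedPrimes (MvPolynomial (Fin n) K)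
          (MvPolynomial (Fin n) K ⧸ HS i (I ^ (k + 1))) ∧
      (I ≠ ⊥ → HS i (I ^ k) ≠ ⊥ → ∀ f : MvPolynomial (Fin n) K,
        (∀ g ∈ I, f * g ∈ HS i (I ^ (k + 1))) ↔ f ∈ HS i (I ^ k)) := by
  classical
  have hgen := Pool.Agent.Results.MP_8dad47_al.GenerationDegree.result K n I hI i hi k hk
  obtain ⟨B, d, hd, hB, rfl⟩ := hI
  have hd' : SameDeg B d := hd
  have hB' : Exc B := hB
  constructor
  · -- degenerate cases
    by_cases hne' : (Sh (pw B k) i).Nonempty
    · have hne : B.Nonempty := by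
        obtain ⟨_, u, ⟨g, hg, rfl⟩, -⟩ := hne'
        exact ⟨g ⟨0, by omega⟩, hg _⟩
      intro P hP
      have hP' : IsAssociatedPrime P _ := hP
      rw [isAssociatedPrime_iff] at hP'
      obtain ⟨hprime, x, hx⟩ := hP'
      obtain ⟨x, rfl⟩ := Ideal.Quotient.mk_surjective x
      have hmem : ∀ f, f ∈ P ↔
          f * x ∈ HS i ((Ideal.span ((fun u => monomial u (1 : K)) '' B)) ^ k) := by
        intro f
        rw [hx, Submodule.mem_colon_singleton, Submodule.mem_bot]
        rw [← Ideal.Quotient.eq_zero_iff_mem, map_mul]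
        rfl
      have hfin := pw_finite hd'
      let Q : (Fin n →₀ ℕ) → Ideal (MvPolynomial (Fin n) K) := fun b =>
        Submodule.comap (LinearMap.mulRight (MvPolynomial (Fin n) K) (x * monomial b 1))
          (HS i ((Ideal.span ((fun u => monomial u (1 : K)) '' B)) ^ (k + 1)))
      have hQ : ∀ b f, f ∈ Q b ↔ f * (x * monomial b 1) ∈
          HS i ((Ideal.span ((fun u => monomial u (1 : K)) '' B)) ^ (k + 1)) := fun b f => Iff.rfl
      have hle : hfin.toFinset.inf Q ≤ P := by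
        intro f hf
        rw [hmem]
        apply colon hd' hB' hne i hi k hk hne'
        intro b hb
        have h1 : f ∈ Q b := (Finset.inf_le (hfin.mem_toFinset.mpr hb) : hfin.toFinset.inf Q ≤ Q b) hf
        rw [hQ] at h1
        rwa [mul_assoc]
      obtain ⟨b, hb, hbP⟩ := (hprime.inf_le').mp hle
      have hb' : b ∈ B := hfin.mem_toFinset.mp hb
      show IsAssociatedPrime P _
      rw [isAssociatedPrime_iff]
      refine ⟨hprime, Ideal.Quotient.mk _ (x * monomial b 1), ?_⟩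
      ext f
      rw [Submodule.mem_colon_singleton, Submodule.mem_bot]
      have h2 : f • (Ideal.Quotient.mk (HS i ((Ideal.span ((fun u => monomial u (1 : K)) '' B)) ^
          (k + 1))) (x * monomial b 1)) = Ideal.Quotient.mk _ (f * (x * monomial b 1)) := by
        rw [map_mul _ f]; rfl
      rw [h2, Ideal.Quotient.eq_zero_iff_mem]
      constructor
      · intro hf
        rw [hmem] at hf
        rw [hgen, ← mul_assoc, mul_comm (f * x)]
        exact Ideal.mul_mem_mul (Ideal.subset_span ⟨b, hb', rfl⟩) hf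
      · intro hf
        exact hbP ((hQ b f).mpr hf)
    · have h0 : HS i ((Ideal.span ((fun u => monomial u (1 : K)) '' B)) ^ k) = ⊥ := by
        rw [HS_eq hd' hB' i hi, Set.not_nonempty_iff_eq_empty.mp hne', Set.image_empty,
          Ideal.span_empty]
      rw [hgen, h0, Ideal.mul_bot]
  · intro hI0 hk0 f
    have hne : B.Nonempty := by
      by_contra hcon
      rw [Set.not_nonempty_iff_eq_empty] at hcon
      apply hI0
      rw [hcon, Set.image_empty, Ideal.span_empty]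
    have hne' : (Sh (pw B k) i).Nonempty := by
      by_contra hcon
      apply hk0
      rw [HS_eq hd' hB' i hi, Set.not_nonempty_iff_eq_empty.mp hcon, Set.image_empty,
        Ideal.span_empty]
    constructor
    · intro h
      exact colon hd' hB' hne i hi k hk hne' f fun b hb => h _ (Ideal.subset_span ⟨b, hb, rfl⟩)
    · intro hf g hg
      rw [hgen, mul_comm f g]
      exact Ideal.mul_mem_mul hg hf

end Pool.Agent.Results.MP_be6357_al.AssChain
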